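import Pool.Agent.H442Z.GP.Main

set_option autoImplicit false

namespace Pool.Agent.H442Z.GP

open Metric

/-- centre of the far ball number `k` -/
noncomputable def cC (θ R M k : ℝ) : E 3 :=
  v3 (4 * (R * (M + k))) (2 * (R * (M + k)) * θ * k) (-1 + (R * (M + k)) * θ ^ 2 * (k ^ 2 - 1 / 8))

noncomputable def cA : E 3 := v3 0 0 (-1)
noncomputable def cB : E 3 := v3 4 0 1

/-- the parameters -/
structure Par (θ R M : ℝ) : Prop where
  hθ : 0 < θ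
  hM : 1 ≤ M
  hR : R * θ = 4
  h3 : θ * M ^ 3 ≤ 1 / 8

section
variable {θ R M : ℝ} (P : Par θ R M)
include P

theorem Par.h2 : θ * M ^ 2 ≤ 1 / 8 := by
  have := P.h3
  have h : θ * M ^ 2 * 1 ≤ θ * M ^ 2 * M :=
    mul_le_mul_of_nonneg_left P.hM (by have := P.hθ; positivity)
  nlinarith

theorem Par.h1 : θ * M ≤ 1 / 8 := by
  have := P.h2
  have h : θ * M * 1 ≤ θ * M * M :=
    mul_le_mul_of_nonneg_left P.hM (by have := P.hθ; have := P.hM; positivity)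
  nlinarith

theorem Par.h0 : θ ≤ 1 / 8 := by
  have := P.h1
  have h : θ * 1 ≤ θ * M := mul_le_mul_of_nonneg_left P.hM P.hθ.le
  nlinarith

theorem Par.R1 : 32 ≤ R := by
  have h0 := P.h0
  have h1 := P.hθ
  have h2 := P.hR
  by_contra h
  push Not at h
  nlinarith

theorem Par.sepAB {k : ℝ} (hk1 : 1 ≤ k) (hk : k ≤ M) : SepMid cA cB (cC θ R M k) := by
  have hθ := P.hθ
  have hM := P.hM
  have hR1 := P.R1
  set b := θ ^ 2 * k ^ 2 + θ ^ 2 / 16 with hb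
  have hb0 : 0 < b := by positivity
  have hb1 : b ≤ 2 * θ * (θ * M ^ 2) := by
    have : k ^ 2 ≤ M ^ 2 := by nlinarith
    have h1 : (1 : ℝ) ≤ M ^ 2 := by nlinarith
    have : θ ^ 2 * k ^ 2 ≤ θ ^ 2 * M ^ 2 := by gcongr
    have : θ ^ 2 * 1 ≤ θ ^ 2 * M ^ 2 := by gcongr
    nlinarith [sq_nonneg θ]
  have hb2 : b ≤ θ / 4 := by nlinarith [P.h2]
  have hb3 : b ^ 2 < θ ^ 2 := by nlinarith
  refine ⟨b / 4, -(θ * k), 1, 1 + ((θ * k) ^ 2 + (b / 4) ^ 2) / 2, by positivity, ?_, ?_, ?_⟩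
  · nlinarith [sq_nonneg ((θ * k) ^ 2 + (b / 4) ^ 2)]
  · simp only [lf, cA, cB, v3_0, v3_1, v3_2]
    nlinarith
  · simp only [lf, cC, cB, v3_0, v3_1, v3_2]
    have hr : 0 < R * (M + k) := by positivity
    set r := R * (M + k)
    have e : b / 4 * (4 * r) + -(θ * k) * (2 * r * θ * k) + 1 * (-1 + r * θ ^ 2 * (k ^ 2 - 1 / 8))
        = -1 - r * θ ^ 2 / 16 := by rw [hb]; ring
    rw [e]
    have : 0 < r * θ ^ 2 := by positivity
    nlinarith

theorem Par.lfC (k l : ℝ) :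
    lf (θ * (M + 2 * k) / 2) (-1) 0 (cC θ R M l) = 8 * (M + k) ^ 2 - 8 * (l - k) ^ 2 := by
  simp only [lf, cC, v3_0, v3_1, v3_2]
  have := P.hR
  have e : θ * (M + 2 * k) / 2 * (4 * (R * (M + l))) + -1 * (2 * (R * (M + l)) * θ * l) +
      0 * (-1 + R * (M + l) * θ ^ 2 * (l ^ 2 - 1 / 8))
      = (R * θ) * (2 * (M + 2 * k) * (M + l) - 2 * (M + l) * l) := by ring
  rw [e, this]
  ring

theorem Par.sepX {k l : ℝ} (hk1 : 1 ≤ k) (hk : k ≤ M) (hl : k + 1 ≤ l) (x : E 3)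
    (hx : lf (θ * (M + 2 * k) / 2) (-1) 0 x ≤ 8 * (M + k) ^ 2 - 8) :
    SepMid x (cC θ R M k) (cC θ R M l) := by
  have hθ := P.hθ
  have hM := P.hM
  have h1 := P.h1
  have ha0 : 0 ≤ θ * (M + 2 * k) / 2 := by positivity
  have ha1 : θ * (M + 2 * k) / 2 ≤ 1 := by nlinarith
  refine ⟨θ * (M + 2 * k) / 2, -1, 0, 2, by norm_num, by nlinarith, ?_, ?_⟩
  · rw [P.lfC]; nlinarith
  · rw [P.lfC, P.lfC]; nlinarith

theorem Par.sepA {k l : ℝ} (hk1 : 1 ≤ k) (hk : k ≤ M) (hl : k + 1 ≤ l) :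
    SepMid cA (cC θ R M k) (cC θ R M l) := by
  refine P.sepX hk1 hk hl _ ?_
  have hM := P.hM
  simp only [lf, cA, v3_0, v3_1, v3_2]
  nlinarith

theorem Par.sepB {k l : ℝ} (hk1 : 1 ≤ k) (hk : k ≤ M) (hl : k + 1 ≤ l) :
    SepMid cB (cC θ R M k) (cC θ R M l) := by
  refine P.sepX hk1 hk hl _ ?_
  have hM := P.hM
  have hθ := P.hθ
  have h1 := P.h1
  simp only [lf, cB, v3_0, v3_1, v3_2]
  nlinarith

theorem Par.sepC {h k l : ℝ} (hk1 : 1 ≤ k) (hk : k ≤ M) (hh : h + 1 ≤ k) (hl : k + 1 ≤ l) :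
    SepMid (cC θ R M h) (cC θ R M k) (cC θ R M l) := by
  refine P.sepX hk1 hk hl _ ?_
  rw [P.lfC]
  nlinarith

end

/-- `b` of plane `j` -/
noncomputable def bb (θ j : ℝ) : ℝ := (θ * (j + 1 / 2)) ^ 2 - θ ^ 2 / 16

/-- normal of plane `j` -/
noncomputable def nu (θ j : ℝ) : E 3 := v3 (bb θ j / 4) (-(θ * (j + 1 / 2))) 1

section
variable {θ R M : ℝ} (P : Par θ R M)
include P

theorem Par.bb_bounds {j : ℝ} (hj0 : 0 ≤ j) (hj : j + 1 ≤ M) :
    0 < bb θ j ∧ bb θ j ≤ θ / 8 := by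
  have hθ := P.hθ
  have hM := P.hM
  have h2 := P.h2
  unfold bb
  have a : (1 / 4 : ℝ) ≤ (j + 1 / 2) ^ 2 := by nlinarith
  have b : (j + 1 / 2) ^ 2 ≤ M ^ 2 := by nlinarith
  have c : θ ^ 2 * (1 / 4) ≤ θ ^ 2 * (j + 1 / 2) ^ 2 := by gcongr
  have d : θ ^ 2 * (j + 1 / 2) ^ 2 ≤ θ ^ 2 * M ^ 2 := by gcongr
  have e : 0 < θ ^ 2 := by positivity
  constructor
  · nlinarith
  · nlinarith

theorem Par.key {j : ℝ} (hj0 : 0 ≤ j) (hj : j + 1 ≤ M) (g : ℝ) (h1 : -(1 + bb θ j / 2) ≤ g)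
    (h2 : g ≤ 1 + bb θ j / 2) :
    g ^ 2 ≤ nu θ j 0 ^ 2 + nu θ j 1 ^ 2 + 1 := by
  obtain ⟨b0, b1⟩ := P.bb_bounds hj0 hj
  have hθ := P.hθ
  have e : g ^ 2 ≤ (1 + bb θ j / 2) ^ 2 := sq_le_sq' h1 h2
  simp only [nu, v3_0, v3_1]
  have e2 : (-(θ * (j + 1 / 2))) ^ 2 = bb θ j + θ ^ 2 / 16 := by unfold bb; ring
  rw [e2]
  have : bb θ j ^ 2 ≤ (θ / 8) ^ 2 := by gcongr
  nlinarith [sq_nonneg (bb θ j / 4), sq_nonneg θ]

theorem Par.trA {j : ℝ} (hj0 : 0 ≤ j) (hj : j + 1 ≤ M) :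
    (lf (nu θ j 0) (nu θ j 1) 1 cA - bb θ j / 2) ^ 2 ≤ nu θ j 0 ^ 2 + nu θ j 1 ^ 2 + 1 := by
  obtain ⟨b0, b1⟩ := P.bb_bounds hj0 hj
  apply P.key hj0 hj <;> simp only [lf, cA, v3_0, v3_1, v3_2] <;> linarith

theorem Par.trB {j : ℝ} (hj0 : 0 ≤ j) (hj : j + 1 ≤ M) :
    (lf (nu θ j 0) (nu θ j 1) 1 cB - bb θ j / 2) ^ 2 ≤ nu θ j 0 ^ 2 + nu θ j 1 ^ 2 + 1 := by
  obtain ⟨b0, b1⟩ := P.bb_bounds hj0 hj
  apply P.key hj0 hj <;> simp only [lf, cB, nu, v3_0, v3_1, v3_2] <;> linarith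

theorem Par.trC {j k : ℝ} (hj0 : 0 ≤ j) (hj : j + 1 ≤ M) (hk1 : 1 ≤ k) (hk : k ≤ M)
    (hjk : 1 / 4 ≤ (k - j - 1 / 2) ^ 2) :
    (lf (nu θ j 0) (nu θ j 1) 1 (cC θ R M k) - bb θ j / 2) ^ 2
      ≤ nu θ j 0 ^ 2 + nu θ j 1 ^ 2 + 1 := by
  obtain ⟨b0, b1⟩ := P.bb_bounds hj0 hj
  have hθ := P.hθ
  have hM := P.hM
  have hR1 := P.R1
  have e : lf (nu θ j 0) (nu θ j 1) 1 (cC θ R M k) - bb θ j / 2
      = -1 - bb θ j / 2 + (R * θ) * ((M + k) * θ * ((k - j - 1 / 2) ^ 2 - 3 / 16)) := by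
    simp only [lf, cC, nu, v3_0, v3_1, v3_2, bb]
    ring
  rw [P.hR] at e
  have u1 : 0 ≤ (M + k) * θ * ((k - j - 1 / 2) ^ 2 - 3 / 16) := by
    apply mul_nonneg (by positivity); linarith
  have u2 : (k - j - 1 / 2) ^ 2 ≤ M ^ 2 := by
    apply sq_le_sq' <;> linarith
  have u3 : (M + k) * θ * ((k - j - 1 / 2) ^ 2 - 3 / 16) ≤ (2 * M) * θ * M ^ 2 := by
    apply mul_le_mul _ (by linarith) (by linarith) (by positivity)
    apply mul_le_mul_of_nonneg_right (by linarith) hθ.le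
  have h3 := P.h3
  apply P.key hj0 hj <;> rw [e] <;> nlinarith

theorem Par.det_eq (j k : ℝ) :
    det3 (nu θ j) cA cB (cC θ R M k) = (R * (M + k)) * θ *
      (8 * (k - j - 1 / 2) + 4 * (j + 1 / 2) * (θ ^ 2 * (k ^ 2 - 1 / 8)) - bb θ j * k) := by
  simp only [det3, cA, cB, cC, nu, v3_0, v3_1, v3_2]
  ring

theorem Par.err {j k : ℝ} (hj0 : 0 ≤ j) (hj : j + 1 ≤ M) (hk1 : 1 ≤ k) (hk : k ≤ M) :
    |4 * (j + 1 / 2) * (θ ^ 2 * (k ^ 2 - 1 / 8)) - bb θ j * k| ≤ 1 := by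
  obtain ⟨b0, b1⟩ := P.bb_bounds hj0 hj
  have hθ := P.hθ
  have hM := P.hM
  have h0 := P.h0
  have h1 := P.h1
  have h3 := P.h3
  have a1 : 0 ≤ 4 * (j + 1 / 2) * (θ ^ 2 * (k ^ 2 - 1 / 8)) := by
    have : 0 ≤ k ^ 2 - 1 / 8 := by nlinarith
    positivity
  have a2 : 4 * (j + 1 / 2) * (θ ^ 2 * (k ^ 2 - 1 / 8)) ≤ 4 * M * (θ ^ 2 * M ^ 2) := by
    have : 0 ≤ k ^ 2 - 1 / 8 := by nlinarith
    have : k ^ 2 - 1 / 8 ≤ M ^ 2 := by nlinarith
    apply mul_le_mul (by linarith) (by gcongr) (by positivity) (by positivity)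
  have a3 : 4 * M * (θ ^ 2 * M ^ 2) = 4 * θ * (θ * M ^ 3) := by ring
  have a4 : 0 ≤ bb θ j * k := by positivity
  have a5 : bb θ j * k ≤ θ / 8 * M := mul_le_mul b1 hk (by linarith) (by positivity)
  rw [abs_le]
  constructor <;> nlinarith

theorem Par.det_pos {j k : ℝ} (hj0 : 0 ≤ j) (hj : j + 1 ≤ M) (hk1 : 1 ≤ k) (hk : k ≤ M)
    (hjk : j + 1 ≤ k) : 0 < det3 (nu θ j) cA cB (cC θ R M k) := by
  have := abs_le.1 (P.err hj0 hj hk1 hk)
  have hθ := P.hθ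
  have hM := P.hM
  have hR1 := P.R1
  rw [P.det_eq]
  apply mul_pos (by positivity)
  linarith [this.1]

theorem Par.det_neg {j k : ℝ} (hj0 : 0 ≤ j) (hj : j + 1 ≤ M) (hk1 : 1 ≤ k) (hk : k ≤ M)
    (hjk : k ≤ j) : det3 (nu θ j) cA cB (cC θ R M k) < 0 := by
  have := abs_le.1 (P.err hj0 hj hk1 hk)
  have hθ := P.hθ
  have hM := P.hM
  have hR1 := P.R1
  rw [P.det_eq]
  apply mul_neg_of_pos_of_neg (by positivity)
  linarith [this.2]

end

/-- the centres -/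
noncomputable def cen (θ R M : ℝ) (i : ℕ) : E 3 :=
  if i = 0 then cA else if i = 1 then cB else cC θ R M ((i : ℝ) - 1)

theorem cen0 (θ R M : ℝ) : cen θ R M 0 = cA := by simp [cen]
theorem cen1 (θ R M : ℝ) : cen θ R M 1 = cB := by simp [cen]
theorem cen2 (θ R M : ℝ) (i : ℕ) (h : 2 ≤ i) : cen θ R M i = cC θ R M ((i : ℝ) - 1) := by
  have h0 : i ≠ 0 := by omega
  have h1 : i ≠ 1 := by omega
  simp [cen, h0, h1]

theorem Par.cen_lt {θ R M : ℝ} (P : Par θ R M) (i j : ℕ) (h : i < j) :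
    cen θ R M i 0 + 2 < cen θ R M j 0 := by
  have hM := P.hM
  have hR1 := P.R1
  by_cases hj : 2 ≤ j
  · have hj' : (2 : ℝ) ≤ j := by exact_mod_cast hj
    rw [cen2 _ _ _ j hj]
    by_cases hi : 2 ≤ i
    · rw [cen2 _ _ _ i hi]
      have : (i : ℝ) + 1 ≤ j := by exact_mod_cast h
      simp only [cC, v3_0]
      nlinarith
    · have : i = 0 ∨ i = 1 := by omega
      rcases this with rfl | rfl
      · rw [cen0]; simp only [cC, cA, v3_0]; nlinarith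
      · rw [cen1]; simp only [cC, cB, v3_0]; nlinarith
  · obtain rfl : j = 1 := by omega
    obtain rfl : i = 0 := by omega
    rw [cen0, cen1]; simp only [cA, cB, v3_0]; norm_num

theorem Par.noLine {θ R : ℝ} {m : ℕ} (P : Par θ R m) (i j k : ℕ) (hij : i < j) (hjk : j < k)
    (hk : k < m + 2) : NoLine (cen θ R m i) (cen θ R m j) (cen θ R m k) := by
  refine noLine_of ?_ (P.cen_lt i j hij) (P.cen_lt j k hjk)
  have hk2 : 2 ≤ k := by omega
  have hk2' : (2 : ℝ) ≤ k := by exact_mod_cast hk2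
  have hk3 : (k : ℝ) ≤ m + 1 := by exact_mod_cast (by omega : k ≤ m + 1)
  have hjk' : (j : ℝ) + 1 ≤ k := by exact_mod_cast hjk
  have hij' : (i : ℝ) + 1 ≤ j := by exact_mod_cast hij
  rw [cen2 _ _ _ k hk2]
  by_cases hj : 2 ≤ j
  · have hj' : (2 : ℝ) ≤ j := by exact_mod_cast hj
    rw [cen2 _ _ _ j hj]
    by_cases hi : 2 ≤ i
    · rw [cen2 _ _ _ i hi]
      exact P.sepC (by linarith) (by linarith) (by linarith) (by linarith)
    · have : i = 0 ∨ i = 1 := by omega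
      rcases this with rfl | rfl
      · rw [cen0]; exact P.sepA (by linarith) (by linarith) (by linarith)
      · rw [cen1]; exact P.sepB (by linarith) (by linarith) (by linarith)
  · obtain rfl : j = 1 := by omega
    obtain rfl : i = 0 := by omega
    rw [cen0, cen1]
    exact P.sepAB (by linarith) (by linarith)

theorem half_sq (a : ℤ) : (1 / 4 : ℝ) ≤ ((a : ℝ) - 1 / 2) ^ 2 := by
  rcases le_or_gt a 0 with h | h
  · have : (a : ℝ) ≤ 0 := by exact_mod_cast h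
    nlinarith
  · have : (1 : ℝ) ≤ a := by exact_mod_cast h
    nlinarith

theorem geomPerms_finite {d n : ℕ} [NeZero d] (A : Fin n → Set (E d)) : (geomPerms A).Finite :=
  Set.toFinite _

theorem main (m : ℕ) (hm : 1 ≤ m) : ∃ c : Fin (m + 2) → E 3,
    Separated 1 (fun i => closedBall (c i) 1) ∧
      m ≤ (geomPerms (fun i => closedBall (c i) 1)).ncard := by
  have hm' : (1 : ℝ) ≤ m := by exact_mod_cast hm
  set θ : ℝ := 1 / (8 * (m : ℝ) ^ 3) with hθ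
  set R : ℝ := 32 * (m : ℝ) ^ 3 with hR
  have P : Par θ R m := by
    refine ⟨by positivity, hm', ?_, ?_⟩
    · rw [hθ, hR]; field_simp; norm_num
    · rw [hθ]; field_simp; norm_num
  let c : Fin (m + 2) → E 3 := fun i => cen θ R m i
  refine ⟨c, separated_of c fun i j k hij hjk => P.noLine i j k hij hjk k.2, ?_⟩
  let F : Fin m → Sym2 ((Fin 3 → Fin (m + 2)) → SignType) :=
    fun j => s(orderType (nu θ j) c, orderType (-(nu θ j)) c)
  have hj1 : ∀ j : Fin m, ((j : ℕ) : ℝ) + 1 ≤ m := fun j => by exact_mod_cast j.2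
  have hj0 : ∀ j : Fin m, (0 : ℝ) ≤ (j : ℕ) := fun j => by positivity
  have hmem : ∀ j, F j ∈ geomPerms (fun i => closedBall (c i) 1) := by
    intro j
    refine mem_geomPerms c _ (bb θ j / 2) rfl ?_
    intro i
    by_cases hi : 2 ≤ (i : ℕ)
    · have hi' : (2 : ℝ) ≤ (i : ℕ) := by exact_mod_cast hi
      have hi3 : ((i : ℕ) : ℝ) ≤ m + 1 := by exact_mod_cast (by omega : (i : ℕ) ≤ m + 1)
      simp only [c]
      rw [cen2 _ _ _ _ hi]
      refine P.trC (hj0 j) (hj1 j) (by linarith) (by linarith) ?_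
      have := half_sq (((i : ℕ) : ℤ) - 1 - ((j : ℕ) : ℤ))
      push_cast at this
      exact this
    · have : (i : ℕ) = 0 ∨ (i : ℕ) = 1 := by omega
      simp only [c]
      rcases this with h | h <;> rw [h]
      · rw [cen0]; exact P.trA (hj0 j) (hj1 j)
      · rw [cen1]; exact P.trB (hj0 j) (hj1 j)
  let T : Fin (m + 2) → Fin 3 → Fin (m + 2) := fun k => ![⟨0, by omega⟩, ⟨1, by omega⟩, k]
  have hT : ∀ (j : Fin m) (k : Fin (m + 2)), 2 ≤ (k : ℕ) → orderType (nu θ j) c (T k) =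
      SignType.sign (det3 (nu θ j) cA cB (cC θ R m (((k : ℕ) : ℝ) - 1))) := by
    intro j k hk
    rw [orderType_eq]
    have e0 : c (T k 0) = cA := cen0 _ _ _
    have e1 : c (T k 1) = cB := cen1 _ _ _
    have e2 : c (T k 2) = cC θ R m (((k : ℕ) : ℝ) - 1) := cen2 _ _ _ _ hk
    rw [e0, e1, e2]
  have href : ∀ j : Fin m, orderType (nu θ j) c (T ⟨m + 1, by omega⟩) = 1 := by
    intro j
    rw [hT j _ (by simp only; omega), sign_eq_one_iff]
    have e : (((m + 1 : ℕ) : ℝ) - 1) = m := by push_cast; ring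
    simp only [e]
    exact P.det_pos (hj0 j) (hj1 j) hm' le_rfl (hj1 j)
  have hlt : ∀ j j' : Fin m, j < j' → F j ≠ F j' := by
    intro j j' hlt heq
    have hlt' : (j : ℕ) < j' := hlt
    have hr : ((j : ℕ) : ℝ) + 1 ≤ (j' : ℕ) := by exact_mod_cast hlt'
    simp only [F, Sym2.eq_iff] at heq
    rcases heq with ⟨h, -⟩ | ⟨h, -⟩
    · have h2 := congrFun h (T ⟨j' + 1, by omega⟩)
      rw [hT j _ (by simp only; omega), hT j' _ (by simp only; omega)] at h2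
      have e : ((((j' : ℕ) + 1 : ℕ) : ℝ) - 1) = (j' : ℕ) := by push_cast; ring
      simp only [e] at h2
      have a1 := P.det_pos (j := (j : ℕ)) (k := (j' : ℕ)) (hj0 j) (hj1 j)
        (by linarith [hj0 j]) (by linarith [hj1 j']) hr
      have a2 := P.det_neg (j := (j' : ℕ)) (k := (j' : ℕ)) (hj0 j') (hj1 j')
        (by linarith [hj0 j]) (by linarith [hj1 j']) le_rfl
      rw [sign_pos a1, sign_neg a2] at h2
      exact absurd h2 (by decide)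
    · have h2 := congrFun h (T ⟨m + 1, by omega⟩)
      rw [orderType_neg, href, href] at h2
      exact absurd h2 (by decide)
  have hinj : Function.Injective F := by
    intro j j' h
    rcases lt_trichotomy j j' with a | a | a
    · exact absurd h (hlt _ _ a)
    · exact a
    · exact absurd h.symm (hlt _ _ a)
  calc m = (Set.range F).ncard := by
        rw [Set.ncard_range_of_injective hinj]; simp
    _ ≤ _ := Set.ncard_le_ncard (by rintro _ ⟨j, rfl⟩; exact hmem j) (geomPerms_finite _)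

end Pool.Agent.H442Z.GP
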