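import Mathlib

/-!
Definitions for geometric permutations induced by hyperplane transversals in `R^d`.
-/

set_option autoImplicit false

namespace Pool.Agent.H442Z.GP

/-- Euclidean `d`-space. -/
abbrev E (d : ℕ) := EuclideanSpace ℝ (Fin d)

/-- `a` is `ρ`-stubby: it contains a ball of radius `1` and lies in a ball of radius `ρ`. -/
def Stubby {d : ℕ} (ρ : ℝ) (a : Set (E d)) : Prop :=
  (∃ c, Metric.closedBall c 1 ⊆ a) ∧ ∃ c, a ⊆ Metric.closedBall c ρ

/-- The family `A` is `k`-separated: no `k + 2` of its members are met by a common `k`-flat. -/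
def Separated {d n : ℕ} (k : ℕ) (A : Fin n → Set (E d)) : Prop :=
  ∀ L : AffineSubspace ℝ (E d), (L : Set (E d)).Nonempty → Module.finrank ℝ L.direction = k →
    ∀ S : Finset (Fin n), S.card = k + 2 → ¬ ∀ i ∈ S, (A i ∩ (L : Set (E d))).Nonempty

/-- The order type of points `p 0, ..., p (n-1)` lying in a hyperplane oriented by the normal
vector `ν`: to a `d`-tuple `τ` of indices it assigns the orientation of the tuple of points
`p (τ 0), ..., p (τ (d-1))`, the sign of the determinant with rows
`ν, p (τ 1) - p (τ 0), ..., p (τ (d-1)) - p (τ 0)`. -/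
noncomputable def orderType {d n : ℕ} [NeZero d] (ν : E d) (p : Fin n → E d) :
    (Fin d → Fin n) → SignType :=
  fun τ => SignType.sign
    (Matrix.det (Matrix.of fun r c : Fin d => if r = 0 then ν c else p (τ r) c - p (τ 0) c))

/-- The geometric permutations of the family `A`: the unordered pairs of order types given by
the two orientations `ν`, `-ν` of a hyperplane `{x | ⟪ν, x⟫ = γ}` that meets every member, read on
points `p i` of `A i` in the hyperplane. -/
def geomPerms {d n : ℕ} [NeZero d] (A : Fin n → Set (E d)) :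
    Set (Sym2 ((Fin d → Fin n) → SignType)) :=
  {P | ∃ (ν : E d) (γ : ℝ) (p : Fin n → E d), ν ≠ 0 ∧ (∀ i, p i ∈ A i ∧ inner ℝ ν (p i) = γ) ∧
    P = s(orderType ν p, orderType (-ν) p)}

end Pool.Agent.H442Z.GP
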