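import Pool.Agent.H442Z.GP.Defs

set_option autoImplicit false

namespace Pool.Agent.H442Z.GP

open Metric

/-- a vector of `R^3` from coordinates -/
noncomputable def v3 (a b c : ℝ) : E 3 := !₂[a, b, c]

@[simp] theorem v3_0 (a b c : ℝ) : v3 a b c 0 = a := rfl
@[simp] theorem v3_1 (a b c : ℝ) : v3 a b c 1 = b := rfl
@[simp] theorem v3_2 (a b c : ℝ) : v3 a b c 2 = c := rfl

theorem mem_ball_iff (c p : E 3) :
    p ∈ closedBall c 1 ↔ (p 0 - c 0) ^ 2 + (p 1 - c 1) ^ 2 + (p 2 - c 2) ^ 2 ≤ 1 := by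
  rw [mem_closedBall, EuclideanSpace.dist_eq, Real.sqrt_le_left zero_le_one, one_pow,
    Fin.sum_univ_three]
  simp only [Real.dist_eq, sq_abs]

theorem inner3 (x y : E 3) : inner ℝ x y = x 0 * y 0 + x 1 * y 1 + x 2 * y 2 := by
  rw [PiLp.inner_apply, Fin.sum_univ_three]
  simp only [RCLike.inner_apply, conj_trivial]
  ring

theorem cs_bound (a b c N x y z : ℝ) (hN : 0 ≤ N) (h : a ^ 2 + b ^ 2 + c ^ 2 ≤ N ^ 2)
    (hx : x ^ 2 + y ^ 2 + z ^ 2 ≤ 1) : |a * x + b * y + c * z| ≤ N := by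
  have h1 : (a * x + b * y + c * z) ^ 2 ≤ (a ^ 2 + b ^ 2 + c ^ 2) * (x ^ 2 + y ^ 2 + z ^ 2) := by
    nlinarith [sq_nonneg (a * y - b * x), sq_nonneg (a * z - c * x), sq_nonneg (b * z - c * y)]
  have h2 : (a ^ 2 + b ^ 2 + c ^ 2) * (x ^ 2 + y ^ 2 + z ^ 2) ≤ N ^ 2 * 1 :=
    mul_le_mul h hx (by positivity) (by positivity)
  exact abs_le_of_sq_le_sq' (by nlinarith) hN |> fun h => abs_le.2 h

/-- the linear form with coefficients `a b c` -/
def lf (a b c : ℝ) (p : E 3) : ℝ := a * p 0 + b * p 1 + c * p 2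

/-- the middle ball is strictly separated from the two outer ones -/
def SepMid (x y z : E 3) : Prop :=
  ∃ a b c N : ℝ, 0 ≤ N ∧ a ^ 2 + b ^ 2 + c ^ 2 ≤ N ^ 2 ∧ lf a b c x + 2 * N < lf a b c y ∧
    lf a b c z + 2 * N < lf a b c y

theorem lf_close (a b c N : ℝ) (hN : 0 ≤ N) (h : a ^ 2 + b ^ 2 + c ^ 2 ≤ N ^ 2) (x p : E 3)
    (hp : p ∈ closedBall x 1) : |lf a b c p - lf a b c x| ≤ N := by
  rw [mem_ball_iff] at hp
  have := cs_bound a b c N _ _ _ hN h hp
  convert this using 2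
  unfold lf
  ring

theorem not_wbtw {x y z p q r : E 3} (h : SepMid x y z) (hp : p ∈ closedBall x 1)
    (hq : q ∈ closedBall y 1) (hr : r ∈ closedBall z 1) : ¬ Wbtw ℝ p q r := by
  obtain ⟨a, b, c, N, hN, h, h1, h2⟩ := h
  rintro ⟨t, ⟨ht0, ht1⟩, rfl⟩
  have e1 := abs_le.1 (lf_close a b c N hN h x p hp)
  have e2 := abs_le.1 (lf_close a b c N hN h y _ hq)
  have e3 := abs_le.1 (lf_close a b c N hN h z r hr)
  have e : lf a b c (AffineMap.lineMap p r t) = (1 - t) * lf a b c p + t * lf a b c r := by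
    unfold lf
    simp only [AffineMap.lineMap_apply, vsub_eq_sub, vadd_eq_add, PiLp.add_apply, PiLp.smul_apply,
      PiLp.sub_apply, smul_eq_mul]
    ring
  rw [e] at e2
  have f1 : lf a b c p < lf a b c y - N := by linarith [e1.2]
  have f2 : lf a b c r < lf a b c y - N := by linarith [e3.2]
  have f3 : (1 - t) * lf a b c p ≤ (1 - t) * (max (lf a b c p) (lf a b c r)) :=
    mul_le_mul_of_nonneg_left (le_max_left _ _) (by linarith)
  have f4 : t * lf a b c r ≤ t * (max (lf a b c p) (lf a b c r)) :=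
    mul_le_mul_of_nonneg_left (le_max_right _ _) ht0
  have f5 : max (lf a b c p) (lf a b c r) < lf a b c y - N := max_lt f1 f2
  nlinarith [e2.1]

/-- no line meets the three unit balls -/
def NoLine (x y z : E 3) : Prop :=
  ∀ p ∈ closedBall x 1, ∀ q ∈ closedBall y 1, ∀ r ∈ closedBall z 1, ¬ Collinear ℝ {p, q, r}

theorem noLine_of {x y z : E 3} (h : SepMid x y z) (hxy : x 0 + 2 < y 0) (hyz : y 0 + 2 < z 0) :
    NoLine x y z := by
  intro p hp q hq r hr hc
  rcases hc.wbtw_or_wbtw_or_wbtw with h1 | h1 | h1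
  · exact not_wbtw h hp hq hr h1
  · refine not_wbtw (x := y) (y := z) (z := x) ⟨1, 0, 0, 1, by norm_num, by norm_num, ?_, ?_⟩
      hq hr hp h1 <;> unfold lf <;> linarith
  · refine not_wbtw (x := z) (y := x) (z := y) ⟨-1, 0, 0, 1, by norm_num, by norm_num, ?_, ?_⟩
      hr hp hq h1 <;> unfold lf <;> linarith

theorem NoLine.swap12 {x y z : E 3} (h : NoLine x y z) : NoLine y x z := by
  intro p hp q hq r hr hc
  refine h q hq p hp r hr ?_
  rwa [Set.insert_comm]

theorem NoLine.swap23 {x y z : E 3} (h : NoLine x y z) : NoLine x z y := by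
  intro p hp q hq r hr hc
  refine h p hp r hr q hq ?_
  rwa [Set.pair_comm r q]

theorem separated_of {n : ℕ} (c : Fin n → E 3)
    (h : ∀ i j k : Fin n, i < j → j < k → NoLine (c i) (c j) (c k)) :
    Separated 1 (fun i => closedBall (c i) 1) := by
  have key : ∀ i j k : Fin n, i ≠ j → i ≠ k → j ≠ k → NoLine (c i) (c j) (c k) := by
    intro i j k hij hik hjk
    rcases lt_or_gt_of_ne hij with a | a <;> rcases lt_or_gt_of_ne hik with b | b <;>
      rcases lt_or_gt_of_ne hjk with d | d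
    · exact h i j k a d
    · exact (h i k j b d).swap23
    · exact absurd (a.trans d) (not_lt.2 b.le)
    · exact (h k i j b a).swap12.swap23
    · exact (h j i k a b).swap12
    · exact absurd (d.trans a) (not_lt.2 b.le)
    · exact (h j k i d b).swap23.swap12
    · exact (h k j i d a).swap12.swap23.swap12
  intro L _ hL S hS hall
  obtain ⟨i, j, k, hij, hik, hjk, rfl⟩ := Finset.card_eq_three.1 hS
  obtain ⟨p, hp, hpL⟩ := hall i (by simp)
  obtain ⟨q, hq, hqL⟩ := hall j (by simp)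
  obtain ⟨r, hr, hrL⟩ := hall k (by simp)
  refine key i j k hij hik hjk p hp q hq r hr ?_
  rw [collinear_iff_finrank_le_one, ← hL]
  apply Submodule.finrank_mono
  rw [← direction_affineSpan]
  apply AffineSubspace.direction_le
  rw [affineSpan_le]
  intro x hx
  simp only [Set.mem_insert_iff, Set.mem_singleton_iff] at hx
  rcases hx with rfl | rfl | rfl <;> assumption

/-- determinant with rows `ν, y - x, z - x` -/
def det3 (ν x y z : E 3) : ℝ :=
  ν 0 * ((y 1 - x 1) * (z 2 - x 2) - (y 2 - x 2) * (z 1 - x 1))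
  - ν 1 * ((y 0 - x 0) * (z 2 - x 2) - (y 2 - x 2) * (z 0 - x 0))
  + ν 2 * ((y 0 - x 0) * (z 1 - x 1) - (y 1 - x 1) * (z 0 - x 0))

theorem orderType_eq {n : ℕ} (ν : E 3) (p : Fin n → E 3) (τ : Fin 3 → Fin n) :
    orderType ν p τ = SignType.sign (det3 ν (p (τ 0)) (p (τ 1)) (p (τ 2))) := by
  unfold orderType det3
  congr 1
  rw [Matrix.det_fin_three]
  have h1 : ((1 : Fin 3) = 0) = False := by decide
  have h2 : ((2 : Fin 3) = 0) = False := by decide
  simp only [Matrix.of_apply, if_true, h1, h2, if_false]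
  ring

theorem orderType_neg {n : ℕ} (ν : E 3) (p : Fin n → E 3) (τ : Fin 3 → Fin n) :
    orderType (-ν) p τ = - orderType ν p τ := by
  rw [orderType_eq, orderType_eq, ← Left.sign_neg]
  congr 1
  unfold det3
  simp only [PiLp.neg_apply]
  ring

theorem mem_geomPerms {n : ℕ} (c : Fin n → E 3) (ν : E 3) (γ : ℝ) (hν : ν 2 = 1)
    (h : ∀ i, (lf (ν 0) (ν 1) 1 (c i) - γ) ^ 2 ≤ ν 0 ^ 2 + ν 1 ^ 2 + 1) :
    s(orderType ν c, orderType (-ν) c) ∈ geomPerms (fun i => closedBall (c i) 1) := by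
  have hpos : 0 < ν 0 ^ 2 + ν 1 ^ 2 + 1 := by positivity
  set Q := ν 0 ^ 2 + ν 1 ^ 2 + 1 with hQ
  let τ : Fin n → ℝ := fun i => (lf (ν 0) (ν 1) 1 (c i) - γ) / Q
  let p : Fin n → E 3 := fun i => c i - τ i • ν
  have hp : ∀ i k, p i k = c i k - τ i * ν k := fun i k => by
    simp only [p, PiLp.sub_apply, PiLp.smul_apply, smul_eq_mul]
  have hot : orderType ν p = orderType ν c := by
    funext s
    rw [orderType_eq, orderType_eq]
    congr 1
    unfold det3
    simp only [hp]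
    ring
  refine ⟨ν, γ, p, ?_, ?_, ?_⟩
  · intro h0
    rw [h0] at hν
    simp at hν
  · intro i
    have hτ : τ i * Q = lf (ν 0) (ν 1) 1 (c i) - γ := by
      simp only [τ]
      field_simp
    constructor
    · show p i ∈ closedBall (c i) 1
      rw [mem_ball_iff]
      simp only [hp, hν]
      have e : (c i 0 - τ i * ν 0 - c i 0) ^ 2 + (c i 1 - τ i * ν 1 - c i 1) ^ 2 +
          (c i 2 - τ i * 1 - c i 2) ^ 2 = τ i ^ 2 * Q := by rw [hQ]; ring
      rw [e]
      have h3 := h i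
      rw [← hτ] at h3
      have : τ i ^ 2 * Q * Q ≤ 1 * Q := by nlinarith
      exact le_of_mul_le_mul_right this hpos
    · rw [inner3]
      simp only [hp, hν]
      unfold lf at hτ
      rw [hQ] at hτ
      linarith
  · rw [hot]
    congr 1
    funext s
    rw [orderType_neg, orderType_neg, hot]

end Pool.Agent.H442Z.GP
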